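import Pool.Agent.W674.LVR.Ex2

/-! # A continuum of counterexamples over one torus -/

set_option autoImplicit false

open MeasureTheory Set Filter Topology
open scoped ENNReal NNReal

namespace Pool.Agent.Y803.LVR

open Pool.Agent.W674.LVR

/-! ## Expanding maps of compact spaces -/

/-- a self-map of a compact metric space which does not decrease distances preserves them -/
theorem isometry_of_expanding {K : Type} [MetricSpace K] [CompactSpace K] (g : K → K)
    (hg : ∀ x y, dist x y ≤ dist (g x) (g y)) : Isometry g := by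
  have hit : ∀ n : ℕ, ∀ x y, dist x y ≤ dist (g^[n] x) (g^[n] y) := by
    intro n
    induction n with
    | zero => intro x y; exact le_rfl
    | succ n ih =>
      intro x y
      rw [Function.iterate_succ_apply', Function.iterate_succ_apply']
      exact (ih x y).trans (hg _ _)
  refine Isometry.of_dist_eq fun x y => le_antisymm ?_ (hg x y)
  refine le_of_forall_pos_le_add fun ε hε => ?_
  -- a nearly returning pair
  obtain ⟨z, -, φ, hφ, hz⟩ := (isCompact_univ (X := K × K)).tendsto_subseq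
    (x := fun n => (g^[n] x, g^[n] y)) (fun n => mem_univ _)
  have hc := hz.cauchySeq
  rw [Metric.cauchySeq_iff] at hc
  obtain ⟨N, hN⟩ := hc (ε / 2) (by positivity)
  have h := hN (N + 1) (by omega) N le_rfl
  have hlt : φ N < φ (N + 1) := hφ (by omega)
  obtain ⟨k, hk⟩ := Nat.exists_eq_add_of_lt hlt
  -- `g^[k+1] x` is close to `x`
  have key : dist (g^[k + 1] x) x < ε / 2 ∧ dist (g^[k + 1] y) y < ε / 2 := by
    have h' : dist ((g^[φ (N + 1)] x, g^[φ (N + 1)] y) : K × K) (g^[φ N] x, g^[φ N] y) < ε / 2 := h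
    rw [Prod.dist_eq, max_lt_iff] at h'
    have e : φ (N + 1) = φ N + (k + 1) := by omega
    rw [e, Function.iterate_add_apply g (φ N) (k + 1) x,
      Function.iterate_add_apply g (φ N) (k + 1) y] at h'
    exact ⟨(hit (φ N) _ _).trans_lt h'.1, (hit (φ N) _ _).trans_lt h'.2⟩
  have h1 : dist (g x) (g y) ≤ dist (g^[k + 1] x) (g^[k + 1] y) := by
    rw [Function.iterate_succ_apply, Function.iterate_succ_apply]
    exact hit k _ _
  have h2 := dist_triangle4 (g^[k + 1] x) x y (g^[k + 1] y)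
  rw [dist_comm y] at h2
  linarith [key.1, key.2]

/-- if `u : A → B` is 1-Lipschitz and bijective, `A` is compact and `A`, `B` are isometric, then
`u` is an isometry -/
theorem isometry_of_bijective {A B : Type} [MetricSpace A] [MetricSpace B] [CompactSpace A]
    (u : A → B) (hu : LipschitzWith 1 u) (hb : Function.Bijective u) (e : B ≃ᵢ A) :
    Isometry u := by
  obtain ⟨v, hv1, hv2⟩ := Function.bijective_iff_has_inverse.1 hb
  have hu' : ∀ x y, dist (u x) (u y) ≤ dist x y := fun x y => by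
    simpa using hu.dist_le_mul x y
  have hg : Isometry (fun a : A => v (e.symm a)) := by
    refine isometry_of_expanding _ fun x y => ?_
    have := hu' (v (e.symm x)) (v (e.symm y))
    rwa [hv2, hv2, e.symm.dist_eq] at this
  refine Isometry.of_dist_eq fun x y => ?_
  have h := hg.dist_eq (e (u x)) (e (u y))
  simp only [IsometryEquiv.symm_apply_apply] at h
  rw [hv1, hv1, e.dist_eq] at h
  exact h.symm

/-! ## The data -/

open Ex

/-- the parameters: numbers `a` with `1 < a ≤ 11/10` -/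
abbrev Par : Type := {a : ℝ≥0 // 1 < a ∧ a ≤ 11 / 10}

theorem intr_pt {t : ℝ} (ht : 0 < t) :
    intrinsicEDist (range Φ) (Φ (pt t)) (Φ (pt (-t))) ≤ ENNReal.ofReal (2 * t) := by
  have hc : IsCurve (range Φ) (fun x => Φ (pt x)) (-t) t (Φ (pt (-t))) (Φ (pt t)) :=
    ⟨by linarith, curve_lip.continuous.continuousOn, fun t _ => ⟨_, rfl⟩, rfl, rfl⟩
  have h1 := intr_le hc
  have h2 := (curve_lip.lipschitzOnWith (s := Icc (-t) t)).comp_eVariationOn_le
    (g := id) (s := Icc (-t) t) (mapsTo_id _)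
  have h3 : eVariationOn (id : ℝ → ℝ) (Icc (-t) t) = ENNReal.ofReal (2 * t) := by
    have := (monotone_id.monotoneOn (Icc (-t) t)).eVariationOn_eq
      (left_mem_Icc.2 (by linarith)) (right_mem_Icc.2 (by linarith))
    rw [inter_self] at this
    rw [this]
    congr 1
    simp only [id]
    ring
  rw [h3, ENNReal.coe_one, one_mul] at h2
  rw [intr_symm]
  exact h1.trans h2

theorem F_pt (t : ℝ) : (Φ (pt t)) 1 - (Φ (pt (-t))) 1 = 2 * Real.sin t := by
  have e1 : ∀ x, (Φ (pt x)) 1 = Real.sin (2 * Real.pi * pt x 0) := fun x => rfl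
  rw [e1, e1, two_pi_pt, two_pi_pt, Real.sin_neg]
  ring

/-- for `1 ≤ K < a` there is a small `t` with `K t < a sin t` -/
theorem exists_t {K a : ℝ} (hK : 0 ≤ K) (h : K < a) (ha : a ≤ 11 / 10) :
    ∃ t : ℝ, 0 < t ∧ t ≤ 1 ∧ K * t < a * Real.sin t := by
  refine ⟨(a - K) / 2, by linarith, by linarith, ?_⟩
  have h0 : 0 < (a - K) / 2 := by linarith
  have hs := Real.sin_gt_sub_cube h0
  have ha0 : 0 < a := by linarith
  have h1 : K * ((a - K) / 2) < a * ((a - K) / 2 - ((a - K) / 2) ^ 3 / 6) := by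
    have h2 : a * ((a - K) / 2) ^ 2 / 6 < a - K := by nlinarith
    nlinarith
  exact h1.trans (mul_lt_mul_of_pos_left hs ha0)

theorem strict_pt {K a : ℝ≥0} (h : K < a) (ha : a ≤ 11 / 10) :
    ∃ t : ℝ, 0 < t ∧ K * (intrinsicEDist (range Φ) (Φ (pt t)) (Φ (pt (-t)))).toReal <
      a * |(Φ (pt t)) 1 - (Φ (pt (-t))) 1| := by
  have ha' : (a : ℝ) ≤ 11 / 10 := by
    have := (NNReal.coe_le_coe).2 ha
    push_cast at this
    exact this
  obtain ⟨t, ht0, ht1, ht⟩ := exists_t K.2 (by exact_mod_cast h : (K : ℝ) < a) ha'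
  refine ⟨t, ht0, ?_⟩
  have hs : 0 < Real.sin t := Real.sin_pos_of_pos_of_lt_pi ht0 (by linarith [Real.pi_gt_three])
  rw [F_pt, abs_of_pos (by linarith)]
  have h1 : (intrinsicEDist (range Φ) (Φ (pt t)) (Φ (pt (-t)))).toReal ≤ 2 * t :=
    ENNReal.toReal_le_of_le_ofReal (by linarith) (intr_pt ht0)
  have h2 := mul_le_mul_of_nonneg_left h1 K.2
  have e : ((K : ℝ≥0) : ℝ) = K.1 := rfl
  rw [e]
  nlinarith [show K.1 * t < a * Real.sin t from ht]

theorem strict_one (a : Par) :
    ∃ t : ℝ, 0 < t ∧ (intrinsicEDist (range Φ) (Φ (pt t)) (Φ (pt (-t)))).toReal <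
      (a : ℝ≥0) * |(Φ (pt t)) 1 - (Φ (pt (-t))) 1| := by
  obtain ⟨t, h1, h2⟩ := strict_pt a.2.1 a.2.2
  rw [NNReal.coe_one, one_mul] at h2
  exact ⟨t, h1, h2⟩

/-- the point of the circle used for `a` -/
noncomputable def tt (a : Par) : ℝ := (strict_one a).choose

theorem tt_pos (a : Par) : 0 < tt a := (strict_one a).choose_spec.1

theorem tt_lt (a : Par) : (intrinsicEDist (range Φ) (Φ (pt (tt a))) (Φ (pt (-tt a)))).toReal <
    (a : ℝ≥0) * |(Φ (pt (tt a))) 1 - (Φ (pt (-tt a))) 1| := (strict_one a).choose_spec.2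

/-- the data of the example with the constant `a` -/
noncomputable def datA (a : Par) : Dat 8 where
  Φ := Φ
  per := Φ_per
  L := 100
  lip := Φ_lip
  sep := Φ_sep
  F := fun p => p 1
  lipF := F_lip
  a := a.1
  one_le := a.2.1.le
  N := {u | s u = 0}
  null := null_set
  loc := fun u₀ hu₀ => by
    obtain ⟨r, hr, h⟩ := Φ_loc u₀ hu₀
    refine ⟨r, hr, fun u hu v hv => le_trans ?_ (h u hu v hv)⟩
    gcongr
    exact a.2.2
  p₀ := pt (tt a)
  q₀ := pt (-tt a)
  strict := by
    rw [ENNReal.lt_ofReal_iff_toReal_lt]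
    · exact tt_lt a
    · exact (intr_pt (tt_pos a)).trans_lt ENNReal.ofReal_lt_top |>.ne

/-- the common target: the corrugated torus with its intrinsic metric -/
abbrev Y : Type := YT dat

/-- the space with the constant `a` -/
abbrev X (a : Par) : Type := XT (datA a)

/-- the identity map -/
def f (a : Par) : X a → Y := fun p => ⟨p.1, p.2⟩

theorem dist_f (a : Par) (p q : X a) : dist (f a p) (f a q) = dY dat p.1 q.1 := rfl

theorem dist_X (a : Par) (p q : X a) :
    dist p q = max (dY dat p.1 q.1) ((a.1 : ℝ) * |p.1 1 - q.1 1|) := rfl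

theorem f_lip (a : Par) : LipschitzWith 1 (f a) := by
  refine LipschitzWith.of_dist_le_mul fun p q => ?_
  rw [NNReal.coe_one, one_mul, dist_f, dist_X]
  exact le_max_left _ _

theorem f_bij (a : Par) : Function.Bijective (f a) :=
  ⟨fun _ _ h => Subtype.ext (congrArg (fun z : Y => z.1) h), fun p => ⟨⟨p.1, p.2⟩, rfl⟩⟩

instance compX (a : Par) : CompactSpace (X a) := (tp_X (datA a)).compactSpace

/-- the exact bi-Lipschitz constant -/
theorem f_anti (a : Par) (K : ℝ≥0) : AntilipschitzWith K (f a) ↔ a.1 ≤ K := by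
  constructor
  · intro h
    by_contra hK
    obtain ⟨t, ht0, ht⟩ := strict_pt (not_le.1 hK) a.2.2
    have h1 := h.le_mul_dist (PX (datA a) (pt t)) (PX (datA a) (pt (-t)))
    rw [dist_f, dist_X] at h1
    have h2 : (a.1 : ℝ) * |(Φ (pt t)) 1 - (Φ (pt (-t))) 1| ≤
        K * (intrinsicEDist (range Φ) (Φ (pt t)) (Φ (pt (-t)))).toReal :=
      (le_max_right _ _).trans h1
    exact absurd h2 (not_le.2 ht)
  · intro h
    refine AntilipschitzWith.of_le_mul_dist fun p q => ?_
    have h1 := dX_le (datA a) p.2 q.2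
    have h2 : dist p q ≤ a.1 * dY dat p.1 q.1 := h1
    have h3 : 0 ≤ dY dat p.1 q.1 := ENNReal.toReal_nonneg
    rw [dist_f]
    exact h2.trans (mul_le_mul_of_nonneg_right (by exact_mod_cast h) h3)

theorem f_not (a : Par) : ¬ Isometry (f a) := fun h => by
  have h1 := (f_anti a 1).1 h.antilipschitz
  exact absurd h1 (not_le.2 a.2.1)

theorem not_isometric_Y (a : Par) : IsEmpty (X a ≃ᵢ Y) :=
  ⟨fun e => f_not a (isometry_of_bijective (f a) (f_lip a) (f_bij a) e.symm)⟩

/-- the identity map between the spaces -/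
def idab (a b : Par) : X b → X a := fun p => ⟨p.1, p.2⟩

theorem idab_lip {a b : Par} (hab : a.1 < b.1) : LipschitzWith 1 (idab a b) := by
  refine LipschitzWith.of_dist_le_mul fun p q => ?_
  rw [NNReal.coe_one, one_mul]
  show max (dY dat p.1 q.1) ((a.1 : ℝ) * |p.1 1 - q.1 1|) ≤
    max (dY dat p.1 q.1) ((b.1 : ℝ) * |p.1 1 - q.1 1|)
  refine max_le_max le_rfl (mul_le_mul_of_nonneg_right ?_ (abs_nonneg _))
  exact_mod_cast hab.le

theorem idab_bij (a b : Par) : Function.Bijective (idab a b) :=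
  ⟨fun _ _ h => Subtype.ext (congrArg (fun z : X a => z.1) h), fun p => ⟨⟨p.1, p.2⟩, rfl⟩⟩

theorem not_isometric_lt {a b : Par} (hab : a.1 < b.1) : IsEmpty (X a ≃ᵢ X b) := by
  refine ⟨fun e => ?_⟩
  have hi : Isometry (idab a b) := isometry_of_bijective _ (idab_lip hab) (idab_bij a b) e
  have h := hi.dist_eq (PX (datA b) (pt (tt a))) (PX (datA b) (pt (-tt a)))
  have h1 : max (intrinsicEDist (range Φ) (Φ (pt (tt a))) (Φ (pt (-tt a)))).toReal
      ((a.1 : ℝ) * |(Φ (pt (tt a))) 1 - (Φ (pt (-tt a))) 1|) =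
      max (intrinsicEDist (range Φ) (Φ (pt (tt a))) (Φ (pt (-tt a)))).toReal
      ((b.1 : ℝ) * |(Φ (pt (tt a))) 1 - (Φ (pt (-tt a))) 1|) := h
  have h2 := tt_lt a
  rw [max_eq_right h2.le] at h1
  have h3 : 0 < |(Φ (pt (tt a))) 1 - (Φ (pt (-tt a))) 1| := by
    by_contra h0
    have h4 : |(Φ (pt (tt a))) 1 - (Φ (pt (-tt a))) 1| = 0 :=
      le_antisymm (not_lt.1 h0) (abs_nonneg _)
    rw [h4, mul_zero] at h2
    exact absurd h2 (not_lt.2 ENNReal.toReal_nonneg)
  have h5 : (a.1 : ℝ) * |(Φ (pt (tt a))) 1 - (Φ (pt (-tt a))) 1| <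
      (b.1 : ℝ) * |(Φ (pt (tt a))) 1 - (Φ (pt (-tt a))) 1| :=
    mul_lt_mul_of_pos_right (by exact_mod_cast hab) h3
  exact absurd h1 (ne_of_lt (h5.trans_le (le_max_right _ _)))

theorem not_isometric {a b : Par} (hab : a ≠ b) : IsEmpty (X a ≃ᵢ X b) := by
  rcases lt_or_gt_of_ne (fun h => hab (Subtype.ext h) : a.1 ≠ b.1) with h | h
  · exact not_isometric_lt h
  · exact ⟨fun e => (not_isometric_lt h).false e.symm⟩

theorem mass_X (a : Par) : mass (cur (PX (datA a))) ≤ mass (cur (PY dat)) :=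
  mass_le (datA a)

end Pool.Agent.Y803.LVR
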